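import Pool.Agent.W_cd7020_h81g.GBrd
import Pool.Agent.W_cd7020_h81r.CTop

/-!
# Colourings with many almost perfect colours
-/

set_option autoImplicit false

namespace Pool.Agent.W_cd7020_h81g

open Finset Pool.Agent.W_cd7020_h81 Pool.Agent.W_cd7020_h81b Pool.Agent.W_cd7020_h81k
  Pool.Agent.W_cd7020_h81r

variable {V κ : Type*} [DecidableEq V] [DecidableEq κ] [Fintype V]

/-- The numerical inequality for the degrees of the hubs. -/
theorem GCas_deg {n s w mm d μx A B : ℕ} (hn : 1 ≤ n) (hA : 1 ≤ A) (hBn : B ≤ n)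
    (hBA : 100 * A ≤ B) (hC : 2 ≤ A * B) (f1 : w * B ≤ s) (f2 : s * (A * B) ≤ (n - 1) * (A * B) + s)
    (f4 : n < μx * A) (hd : d + s + 1 = n + μx) (hmm : mm * B ≤ 2 * n) :
    4 * mm + 6 * w + 3 ≤ d := by
  have f3 := CTop_s_le hC f2
  by_contra hcon
  have hd' : d ≤ 4 * mm + 6 * w + 2 := by omega
  have g1 : d * B ≤ (4 * mm + 6 * w + 2) * B := Nat.mul_le_mul_right _ hd'
  have g2 : (4 * mm + 6 * w + 2) * B = 4 * (mm * B) + 6 * (w * B) + 2 * B := by ring
  have g3 : d * B ≤ 22 * n := by omega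
  have g4 : d * (A * B) ≤ 22 * n * A := by
    calc d * (A * B) = d * B * A := by ring
      _ ≤ 22 * n * A := Nat.mul_le_mul_right _ g3
  have g5 : n * B ≤ μx * (A * B) := by
    calc n * B ≤ μx * A * B := Nat.mul_le_mul_right _ f4.le
      _ = μx * (A * B) := by ring
  have g6 : (d + s + 1) * (A * B) = (n + μx) * (A * B) := by rw [hd]
  have g7 : (d + s + 1) * (A * B) = d * (A * B) + s * (A * B) + A * B := by ring
  have g8 : (n + μx) * (A * B) = n * (A * B) + μx * (A * B) := by ring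
  have g9 : (n - 1) * (A * B) + A * B = n * (A * B) := by
    obtain ⟨k, rfl⟩ : ∃ k, n = k + 1 := ⟨n - 1, by omega⟩
    rw [Nat.add_sub_cancel]
    ring
  have g10 : n * B ≤ 22 * n * A + s := by omega
  have g11 : n * (100 * A) ≤ n * B := Nat.mul_le_mul_left _ hBA
  have g12 : n * (100 * A) = 100 * (n * A) := by ring
  have g13 : 22 * n * A = 22 * (n * A) := by ring
  have g14 : n ≤ n * A := Nat.le_mul_of_pos_right _ (by omega)
  omega

/-- The other numerical inequalities. `p = L ^ 177`. -/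
theorem GCas_num {n s w q L p : ℕ} (hL4 : 10 ^ 4 ≤ L) (hp : 1 ≤ p)
    (hbig : L * (L ^ 3 * p) ≤ n) (hwq : w ≤ q)
    (hS : (n - s) * (L ^ 3 * p) ≤ n) (hq : q * (L ^ 3 * p) ≤ 4 * n) :
    2 * w ≤ n ∧ q * p ≤ n - w ∧
      n / (L * p) + w + 2 * q + 1 ≤ (n - w) / p ∧ n ≤ s + (n - w) / p := by
  have hL3 : 1 ≤ L ^ 3 := Nat.one_le_pow _ _ (by omega)
  have hLL : L ≤ L ^ 3 := Nat.le_self_pow (by norm_num) _
  have a2 : 10 ^ 4 * (q * p) ≤ 4 * n := by
    calc 10 ^ 4 * (q * p) ≤ L ^ 3 * (q * p) := Nat.mul_le_mul_right _ (hL4.trans hLL)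
      _ = q * (L ^ 3 * p) := by ring
      _ ≤ 4 * n := hq
  have a1 : w * p ≤ q * p := Nat.mul_le_mul_right _ hwq
  have a3 : 10 ^ 4 * p ≤ n := by
    calc 10 ^ 4 * p ≤ L * p := Nat.mul_le_mul_right _ hL4
      _ ≤ L * (L ^ 3 * p) := Nat.mul_le_mul_left _ (Nat.le_mul_of_pos_left _ (by omega))
      _ ≤ n := hbig
  have a4 : w ≤ w * p := Nat.le_mul_of_pos_right _ (by omega)
  have a5 : 2 * w ≤ n := by omega
  refine ⟨a5, ?_, ?_, ?_⟩
  · omega
  · rw [Nat.le_div_iff_mul_le (by omega)]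
    have b1 : n / (L * p) * (L * p) ≤ n := Nat.div_mul_le_self _ _
    have b2 : 10 ^ 4 * (n / (L * p) * p) ≤ n := by
      calc 10 ^ 4 * (n / (L * p) * p) ≤ L * (n / (L * p) * p) := Nat.mul_le_mul_right _ hL4
        _ = n / (L * p) * (L * p) := by ring
        _ ≤ n := b1
    have b3 : (n / (L * p) + w + 2 * q + 1) * p =
        n / (L * p) * p + w * p + 2 * (q * p) + p := by ring
    rw [b3]
    omega
  · have b1 : (n - s) * p ≤ n - w := by
      have b2 : 10 ^ 4 * ((n - s) * p) ≤ n := by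
        calc 10 ^ 4 * ((n - s) * p) ≤ L ^ 3 * ((n - s) * p) :=
              Nat.mul_le_mul_right _ (hL4.trans hLL)
          _ = (n - s) * (L ^ 3 * p) := by ring
          _ ≤ n := hS
      omega
    have b3 : n - s ≤ (n - w) / p := by
      rw [Nat.le_div_iff_mul_le (by omega)]
      exact b1
    omega

/-- Adapt the proof of `case1_small` (`W_cd7020_h81r/CTop.lean`) with `brd_existsL` for
`W₀ = hubs col S (L ^ 178)`: `|W| ≤ |F| + |W₀| ≤ 4 n / L ^ 180`, `|Pb| ≤ |F| + |W₀|`. If `U₁ ≠ univ` then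
`|S| + |F| ≤ |S| + |vE| + |W| < |U₁| + L ^ 207 + |W| = |U| + L ^ 207`. -/
theorem caseL_small (col : Sym2 V → κ) (hcol : Proper col) (L : ℕ) (hL4 : 10 ^ 4 ≤ L)
    (hn : Fintype.card V ≤ 2 ^ L) (hL : L ^ 401 ≤ Fintype.card V) (S : Finset κ)
    (hSc : ∀ k ∈ S, (univ.filter (fun x => par col k x = x)).card * L ^ 358 ≤ Fintype.card V)
    (hS : (Fintype.card V - S.card) * L ^ 180 ≤ Fintype.card V) (F : Finset (Sym2 V))
    (hF : LF univ F) (hr : Rb col F) (hFS : ∀ e ∈ F, col e ∉ S)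
    (hFc : F.card * L ^ 180 ≤ 2 * Fintype.card V) :
    ∃ (U : Finset V) (E : Finset (Sym2 V)), Cyc U E ∧ E.card = U.card ∧ Rb col E ∧
      3 ≤ U.card ∧ (U = univ ∨ S.card + F.card < U.card + L ^ 207) := by
  classical
  have hL1 : 1 ≤ L := le_trans (by norm_num) hL4
  have hL0 : 0 < L := hL1
  -- powers
  obtain ⟨p, hp⟩ : ∃ p : ℕ, p = L ^ 177 := ⟨_, rfl⟩
  have hp1 : 1 ≤ p := hp ▸ Nat.one_le_pow _ _ hL0
  have e178 : L ^ 178 = L * p := by rw [hp, ← pow_succ']
  have e180 : L ^ 180 = L ^ 3 * p := by rw [hp, ← pow_add]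
  have e358 : L ^ 358 = (L * p) * (L ^ 3 * p) := by rw [← e178, ← e180, ← pow_add]
  have e401 : L * (L ^ 3 * p) ≤ Fintype.card V := by
    rw [← e180, ← pow_succ']
    exact (Nat.pow_le_pow_right hL0 (by norm_num)).trans hL
  have hn1 : 1 ≤ Fintype.card V := (Nat.one_le_pow _ _ hL0).trans hL
  have hL3 : 1 ≤ L ^ 3 := Nat.one_le_pow _ _ hL0
  have hA1 : 1 ≤ L * p := Nat.mul_pos hL0 hp1
  have hBn : L ^ 3 * p ≤ Fintype.card V := (Nat.le_mul_of_pos_left _ hL0).trans e401
  have hBA : 100 * (L * p) ≤ L ^ 3 * p := by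
    calc 100 * (L * p) ≤ L ^ 2 * (L * p) := by
          refine Nat.mul_le_mul_right _ ?_
          calc 100 ≤ 10 ^ 4 := by norm_num
            _ ≤ L := hL4
            _ ≤ L ^ 2 := Nat.le_self_pow (by norm_num) _
      _ = L ^ 3 * p := by ring
  have hB2 : 2 ≤ L ^ 3 * p := by
    have : 100 * 1 ≤ 100 * (L * p) := Nat.mul_le_mul_left _ hA1
    omega
  have hC : 2 ≤ (L * p) * (L ^ 3 * p) := by
    calc 2 = 1 * 2 := by norm_num
      _ ≤ (L * p) * (L ^ 3 * p) := Nat.mul_le_mul hA1 hB2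
  -- the hubs
  set W₀ : Finset V := hubs col S (L ^ 178) with hWdef
  have f1 : W₀.card * (L ^ 3 * p) ≤ S.card := by
    have h1 := hubs_card col S (L ^ 358) (L ^ 178) hSc hn1
    rw [← hWdef, e358, e178] at h1
    have h2 : W₀.card * ((L * p) * (L ^ 3 * p)) = W₀.card * (L ^ 3 * p) * (L * p) := by ring
    rw [h2] at h1
    exact Nat.le_of_mul_le_mul_right h1 hA1
  have f2 : S.card * ((L * p) * (L ^ 3 * p)) ≤
      (Fintype.card V - 1) * ((L * p) * (L ^ 3 * p)) + S.card := by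
    rw [← e358]
    exact S_card col hcol S (L ^ 358) hSc hn1
  have f3 : S.card ≤ 2 * Fintype.card V := by
    have := CTop_s_le hC f2
    omega
  rw [e180] at hS hFc
  -- the bridges
  obtain ⟨W, Pb, hWW, hB, hPb1, hPb3, hPb2⟩ := brd_existsL col hcol S W₀ F hF hr hFS (by
    intro x hx
    have h1 : Fintype.card V < miss col S x * (L * p) := by
      rw [← e178]
      exact (Finset.mem_filter.1 hx).2
    exact GCas_deg hn1 hA1 hBn hBA hC f1 f2 h1 (deg_nS col hcol S x) hFc)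
  have hq : (F.card + W₀.card) * (L ^ 3 * p) ≤ 4 * Fintype.card V := by
    rw [add_mul]
    omega
  obtain ⟨n1, n2, n3, n4⟩ := GCas_num hL4 hp1 e401 hPb3 hS hq
  have hcard : Fintype.card {x // x ∉ W} = Fintype.card V - W.card := by
    rw [Fintype.card_subtype_compl, Fintype.card_coe]
  have hvE := vE_card col S W Pb hB
  have hvS : (vS W S).card = S.card := Finset.card_map _
  have hgood : GoodK (vcol col W Pb) (vS W S) ((Fintype.card V - W.card) / p) := by
    refine vcol_good col hcol S W Pb hB _ (Fintype.card V / (L * p)) ?_ ?_ ?_ ?_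
    · intro k hk
      rw [Nat.le_div_iff_mul_le hA1]
      refine le_trans (Nat.mul_le_mul_left _ ?_) (hSc k hk)
      rw [← e178]
      exact Nat.pow_le_pow_right hL0 (by norm_num)
    · intro x hx
      rw [Nat.le_div_iff_mul_le hA1, ← e178]
      by_contra h
      exact hx (hWW (Finset.mem_filter.2 ⟨Finset.mem_univ _, not_le.1 h⟩))
    · refine le_trans ?_ n3
      omega
    · exact n4
  obtain ⟨U₁, E₁, c1, c2, c3, c4, c5, c6, c7⟩ := mainK (vcol col W Pb) (vS W S) L
    ((Fintype.card V - W.card) / p) hL4 (by rw [hcard]; omega) (by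
      rw [hcard]
      have h1 : L * L ^ 400 ≤ Fintype.card V := by
        rw [← pow_succ']
        exact hL
      have h2 : 2 * L ^ 400 ≤ L * L ^ 400 := Nat.mul_le_mul_right _ (le_trans (by norm_num) hL4)
      omega) (by
      rw [hcard, ← hp]
      exact Nat.div_mul_le_self _ _) hgood (vE W Pb) (vE_fix col S W Pb hB) (by
      rw [hcard, hvE, ← hp]
      exact (Nat.mul_le_mul_right _ hPb2).trans n2)
  obtain ⟨U, E, d1, d2, d3, d4, d5⟩ := back col S W Pb hB U₁ E₁ c1 c2 c6 c3 c4 c5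
  refine ⟨U, E, d1, d2, d3, d4, ?_⟩
  rcases c7 with h | h
  · left
    refine Finset.eq_univ_of_card U ?_
    rw [d5, h, Finset.card_univ, hcard]
    omega
  · right
    rw [hvS, hvE] at h
    omega

/-- The same for every linear forest: a subset of `F` with at most `n - |S| + L ^ 207` elements; compare
`case1`. -/
theorem caseL (col : Sym2 V → κ) (hcol : Proper col) (L : ℕ) (hL4 : 10 ^ 4 ≤ L)
    (hn : Fintype.card V ≤ 2 ^ L) (hL : L ^ 401 ≤ Fintype.card V) (S : Finset κ)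
    (hSc : ∀ k ∈ S, (univ.filter (fun x => par col k x = x)).card * L ^ 358 ≤ Fintype.card V)
    (hS : (Fintype.card V - S.card) * L ^ 180 ≤ Fintype.card V) (F : Finset (Sym2 V))
    (hF : LF univ F) (hr : Rb col F) (hFS : ∀ e ∈ F, col e ∉ S) :
    ∃ (U : Finset V) (E : Finset (Sym2 V)), Cyc U E ∧ E.card = U.card ∧ Rb col E ∧
      3 ≤ U.card ∧ (U = univ ∨ S.card + F.card < U.card + L ^ 207) := by
  have hL0 : 0 < L := le_trans (by norm_num) hL4
  have hbound : (Fintype.card V - S.card + L ^ 207) * L ^ 180 ≤ 2 * Fintype.card V := by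
    rw [add_mul, ← pow_add]
    have h1 : L ^ (207 + 180) ≤ L ^ 401 := Nat.pow_le_pow_right hL0 (by norm_num)
    omega
  by_cases hFc : F.card ≤ Fintype.card V - S.card + L ^ 207
  · exact caseL_small col hcol L hL4 hn hL S hSc hS F hF hr hFS
      ((Nat.mul_le_mul_right _ hFc).trans hbound)
  · obtain ⟨F', hF', hc⟩ := Finset.exists_subset_card_eq (s := F)
      (n := Fintype.card V - S.card + L ^ 207) (not_le.1 hFc).le
    obtain ⟨U, E, h1, h2, h3, h4, h5⟩ := caseL_small col hcol L hL4 hn hL S hSc hS F'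
      (hF.mono hF') (fun e he e' he' => hr e (hF' he) e' (hF' he'))
      (fun e he => hFS e (hF' he)) (by rw [hc]; exact hbound)
    refine ⟨U, E, h1, h2, h3, h4, Or.inl ?_⟩
    rcases h5 with h5 | h5
    · exact h5
    · exfalso
      rw [hc] at h5
      have := Finset.card_le_univ U
      omega

end Pool.Agent.W_cd7020_h81g
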