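import Pool.Agent.W_cd7020_h81g.GStr

/-!
# Rainbow linear forests: existence
-/

set_option autoImplicit false

namespace Pool.Agent.W_cd7020_h81g

open Finset Pool.Agent.W_cd7020_h81

variable {V κ : Type*} [DecidableEq V] [DecidableEq κ] [Fintype V]

omit [DecidableEq κ] [Fintype V] in
/-- The vertices of an edge which is not a loop. -/
theorem GCnt_two (e : Sym2 V) (he : ¬ e.IsDiag) (X : Finset V) :
    (X.filter (fun v => v ∈ e)).card ≤ 2 ∧
      ((∃ v ∈ e, v ∉ X) → (X.filter (fun v => v ∈ e)).card ≤ 1) := by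
  induction e using Sym2.ind with
  | _ a b =>
    have hs : X.filter (fun v => v ∈ s(a, b)) ⊆ {a, b} := by
      intro v hv
      rw [Finset.mem_filter, Sym2.mem_iff] at hv
      rw [Finset.mem_insert, Finset.mem_singleton]
      exact hv.2
    refine ⟨(Finset.card_le_card hs).trans Finset.card_le_two, ?_⟩
    rintro ⟨v, hv, hvX⟩
    rw [Sym2.mem_iff] at hv
    have hs2 : X.filter (fun v => v ∈ s(a, b)) ⊆ {a, b} \ {v} := by
      intro w hw
      rw [Finset.mem_sdiff, Finset.mem_singleton]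
      refine ⟨hs hw, ?_⟩
      rintro rfl
      exact hvX (Finset.mem_filter.1 hw).1
    have h1 : v ∈ ({a, b} : Finset V) := by
      rw [Finset.mem_insert, Finset.mem_singleton]
      exact hv
    have h2 := Finset.card_le_card hs2
    rw [Finset.card_sdiff_of_subset (Finset.singleton_subset_iff.2 h1),
      Finset.card_singleton] at h2
    have h3 : ({a, b} : Finset V).card ≤ 2 := Finset.card_le_two
    omega

omit [DecidableEq κ] in
theorem GCnt_all (e : Sym2 V) (he : ¬ e.IsDiag) :
    ((univ : Finset V).filter (fun v => v ∈ e)).card = 2 := by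
  induction e using Sym2.ind with
  | _ a b =>
    have hab : a ≠ b := by
      intro h
      exact he (by rw [h]; exact Sym2.mk_isDiag_iff.2 rfl)
    have hs : (univ : Finset V).filter (fun v => v ∈ s(a, b)) = {a, b} := by
      ext v
      rw [Finset.mem_filter, Sym2.mem_iff, Finset.mem_insert, Finset.mem_singleton]
      exact ⟨fun h => h.2, fun h => ⟨Finset.mem_univ _, h⟩⟩
    rw [hs, Finset.card_pair hab]

omit [DecidableEq κ] in
theorem GCnt_dg (H : Finset (Sym2 V)) (v : V) : dg H v ≤ Fintype.card V := by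
  have hs : H.filter (fun e => v ∈ e) ⊆ (univ : Finset V).image (fun w => s(v, w)) := by
    intro e he
    obtain ⟨w, rfl⟩ := (Finset.mem_filter.1 he).2
    exact Finset.mem_image_of_mem _ (Finset.mem_univ _)
  exact (Finset.card_le_card hs).trans (Finset.card_image_le.trans (le_of_eq Finset.card_univ))

omit [DecidableEq κ] [Fintype V] in
theorem GCnt_sum (X : Finset V) (H : Finset (Sym2 V)) :
    ∑ v ∈ X, dg H v = ∑ e ∈ H, (X.filter (fun v => v ∈ e)).card := by
  unfold dg
  simp only [Finset.card_filter]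
  rw [Finset.sum_comm]

theorem GCnt_col (col : Sym2 V → κ) (H : Finset (Sym2 V)) (hdiag : ∀ e ∈ H, ¬ e.IsDiag)
    (hp : ∀ e ∈ H, ∀ e' ∈ H, ∀ x, x ∈ e → x ∈ e' → col e = col e' → e = e') (q : κ) :
    2 * (H.filter (fun e => col e = q)).card ≤ Fintype.card V := by
  have h1 := GCnt_sum (univ : Finset V) (H.filter (fun e => col e = q))
  rw [Finset.sum_congr rfl (fun e he => GCnt_all e (hdiag e (Finset.mem_filter.1 he).1)),
    Finset.sum_const, smul_eq_mul, mul_comm] at h1
  rw [← h1]
  calc ∑ v, dg (H.filter (fun e => col e = q)) v ≤ ∑ _v : V, 1 := by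
        refine Finset.sum_le_sum fun v _ => ?_
        unfold dg
        rw [Finset.card_le_one]
        intro e he e' he'
        rw [Finset.mem_filter, Finset.mem_filter] at he he'
        exact hp e he.1.1 e' he'.1.1 v he.2 he'.2 (he.1.2.trans he'.1.2.symm)
    _ = Fintype.card V := by simp

/-- The edges avoiding `D` are those also avoiding the colours in `B` and those with a colour in `B`. -/
theorem GCnt_B (col : Sym2 V → κ) (H : Finset (Sym2 V)) (D : Finset V) (B : Finset κ) :
    (H.filter (fun e => ∀ v ∈ e, v ∉ D)).card ≤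
      (H.filter (fun e => (∀ v ∈ e, v ∉ D) ∧ col e ∉ B)).card +
      ∑ q ∈ B, (H.filter (fun e => col e = q)).card := by
  classical
  have hs : H.filter (fun e => ∀ v ∈ e, v ∉ D) ⊆
      H.filter (fun e => (∀ v ∈ e, v ∉ D) ∧ col e ∉ B) ∪
        B.biUnion (fun q => H.filter (fun e => col e = q)) := by
    intro e he
    rw [Finset.mem_filter] at he
    rw [Finset.mem_union]
    by_cases hB : col e ∈ B
    · right
      rw [Finset.mem_biUnion]
      exact ⟨col e, hB, Finset.mem_filter.2 ⟨he.1, rfl⟩⟩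
    · left
      exact Finset.mem_filter.2 ⟨he.1, he.2, hB⟩
  exact (Finset.card_le_card hs).trans ((Finset.card_union_le _ _).trans
    (Nat.add_le_add_left Finset.card_biUnion_le _))

omit [DecidableEq κ] in
theorem GCnt_D (H : Finset (Sym2 V)) (D : Finset V) :
    (H.filter (fun e => ¬ ∀ v ∈ e, v ∉ D)).card ≤ D.card * Fintype.card V := by
  classical
  have hs : H.filter (fun e => ¬ ∀ v ∈ e, v ∉ D) ⊆
      D.biUnion (fun v => H.filter (fun e => v ∈ e)) := by
    intro e he
    rw [Finset.mem_filter] at he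
    obtain ⟨he1, he2⟩ := he
    push Not at he2
    obtain ⟨v, hv, hvD⟩ := he2
    rw [Finset.mem_biUnion]
    exact ⟨v, hvD, Finset.mem_filter.2 ⟨he1, hv⟩⟩
  refine (Finset.card_le_card hs).trans (Finset.card_biUnion_le.trans ?_)
  calc ∑ v ∈ D, (H.filter (fun e => v ∈ e)).card ≤ ∑ _v ∈ D, Fintype.card V :=
        Finset.sum_le_sum fun v _ => GCnt_dg H v
    _ = D.card * Fintype.card V := by simp

/-- The number of edges of `H` in terms of `D` and `B`. Every colour has at most `n / 2` edges, every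
vertex is in less than `n` edges. -/
theorem count_H (col : Sym2 V → κ) (H : Finset (Sym2 V)) (hdiag : ∀ e ∈ H, ¬ e.IsDiag)
    (hp : ∀ e ∈ H, ∀ e' ∈ H, ∀ x, x ∈ e → x ∈ e' → col e = col e' → e = e')
    (D : Finset V) (B : Finset κ) :
    2 * H.card ≤ 2 * (H.filter (fun e => (∀ v ∈ e, v ∉ D) ∧ col e ∉ B)).card +
      2 * D.card * Fintype.card V + B.card * Fintype.card V := by
  have h1 := GCnt_B col H D B
  have h2 := GCnt_D H D
  have h3 : (H.filter (fun e => ∀ v ∈ e, v ∉ D)).card +
      (H.filter (fun e => ¬ ∀ v ∈ e, v ∉ D)).card = H.card :=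
    Finset.card_filter_add_card_filter_not _
  have h4 : 2 * ∑ q ∈ B, (H.filter (fun e => col e = q)).card ≤ B.card * Fintype.card V := by
    rw [Finset.mul_sum]
    calc ∑ q ∈ B, 2 * (H.filter (fun e => col e = q)).card ≤ ∑ _q ∈ B, Fintype.card V :=
          Finset.sum_le_sum fun q _ => GCnt_col col H hdiag hp q
      _ = B.card * Fintype.card V := by simp
  rw [mul_assoc]
  omega

/-- A rainbow linear forest with `m` edges if `2 |H| > n (m - 1) + 44 m`: by `struct_lf` and `count_H`
otherwise `2 |H| ≤ 44 m r + n (m - r)`. -/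
theorem lf_exists (col : Sym2 V → κ) (H : Finset (Sym2 V)) (hdiag : ∀ e ∈ H, ¬ e.IsDiag)
    (hp : ∀ e ∈ H, ∀ e' ∈ H, ∀ x, x ∈ e → x ∈ e' → col e = col e' → e = e') (m : ℕ)
    (hm1 : 1 ≤ m) (hn : 44 * m ≤ Fintype.card V)
    (he : Fintype.card V * (m - 1) + 44 * m < 2 * H.card) :
    ∃ F, F ⊆ H ∧ LF univ F ∧ Rb col F ∧ F.card = m := by
  rcases struct_lf col H hdiag hp m hm1 with h | ⟨D, B, r, hr, hm, hH⟩
  · exact h
  exfalso
  have h1 := count_H col H hdiag hp D B
  obtain ⟨m, rfl⟩ : ∃ k, m = k + 1 := ⟨m - 1, by omega⟩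
  obtain ⟨r, rfl⟩ : ∃ k, r = k + 1 := ⟨r - 1, by omega⟩
  rw [Nat.add_sub_cancel] at he
  set n := Fintype.card V
  have h2 : (2 * D.card + B.card) * n + r * n = m * n := by
    rw [← add_mul]
    congr 1
    omega
  have h3 : r * (44 * (m + 1)) ≤ r * n := Nat.mul_le_mul_left _ hn
  have h4 : 2 * (22 * (m + 1) * (r + 1)) = r * (44 * (m + 1)) + 44 * (m + 1) := by ring
  have h5 : 2 * D.card * n + B.card * n = (2 * D.card + B.card) * n := by ring
  have h6 : n * m = m * n := mul_comm _ _
  omega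

/-- The number of edges in terms of the minimum degree `j`, if every colour has at most
`(1 - 1 / a) n / 2` edges: `j (n - |D|) ≤ ∑ x ∉ D, dg H x ≤ 2 |H'| + |D| n`, `H'` the edges avoiding `D`, and
`2 |H'| ≤ 2 |H''| + |B| (1 - 1 / a) n`. (All multiplied by `a`.) -/
theorem count_deg (col : Sym2 V → κ) (H : Finset (Sym2 V)) (hdiag : ∀ e ∈ H, ¬ e.IsDiag)
    (j a : ℕ) (hdeg : ∀ x, j ≤ dg H x)
    (ha : ∀ q, 2 * (H.filter (fun e => col e = q)).card * a + Fintype.card V ≤
      Fintype.card V * a) (D : Finset V) (B : Finset κ) :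
    j * (Fintype.card V - D.card) * a + B.card * Fintype.card V ≤
      2 * (H.filter (fun e => (∀ v ∈ e, v ∉ D) ∧ col e ∉ B)).card * a +
      D.card * Fintype.card V * a + B.card * Fintype.card V * a := by
  classical
  have h1 := GCnt_B col H D B
  have h2 := GCnt_D H D
  have h3 : j * (Fintype.card V - D.card) ≤ 2 * (H.filter (fun e => ∀ v ∈ e, v ∉ D)).card +
      (H.filter (fun e => ¬ ∀ v ∈ e, v ∉ D)).card := by
    have h4 : j * (Fintype.card V - D.card) ≤ ∑ v ∈ Dᶜ, dg H v := by
      rw [← Finset.card_compl, mul_comm, ← smul_eq_mul, ← Finset.sum_const]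
      exact Finset.sum_le_sum fun v _ => hdeg v
    refine h4.trans ?_
    rw [GCnt_sum, ← Finset.sum_filter_add_sum_filter_not H (fun e => ∀ v ∈ e, v ∉ D)]
    refine Nat.add_le_add ?_ ?_
    · calc ∑ e ∈ H.filter (fun e => ∀ v ∈ e, v ∉ D), (Dᶜ.filter (fun v => v ∈ e)).card
          ≤ ∑ _e ∈ H.filter (fun e => ∀ v ∈ e, v ∉ D), 2 :=
            Finset.sum_le_sum fun e he =>
              (GCnt_two e (hdiag e (Finset.mem_filter.1 he).1) _).1
        _ = 2 * (H.filter (fun e => ∀ v ∈ e, v ∉ D)).card := by simp [mul_comm]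
    · calc ∑ e ∈ H.filter (fun e => ¬ ∀ v ∈ e, v ∉ D), (Dᶜ.filter (fun v => v ∈ e)).card
          ≤ ∑ _e ∈ H.filter (fun e => ¬ ∀ v ∈ e, v ∉ D), 1 :=
            Finset.sum_le_sum fun e he => by
              refine (GCnt_two e (hdiag e (Finset.mem_filter.1 he).1) _).2 ?_
              have h5 := (Finset.mem_filter.1 he).2
              push Not at h5
              obtain ⟨v, hv, hvD⟩ := h5
              exact ⟨v, hv, by rw [Finset.mem_compl]; exact fun h => h hvD⟩
        _ = (H.filter (fun e => ¬ ∀ v ∈ e, v ∉ D)).card := by simp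
  have h4 : 2 * (∑ q ∈ B, (H.filter (fun e => col e = q)).card) * a + B.card * Fintype.card V ≤
      B.card * Fintype.card V * a := by
    have h5 : ∑ q ∈ B, (2 * (H.filter (fun e => col e = q)).card * a + Fintype.card V) ≤
        ∑ _q ∈ B, Fintype.card V * a := Finset.sum_le_sum fun q _ => ha q
    rw [Finset.sum_add_distrib, Finset.sum_const, Finset.sum_const, smul_eq_mul, smul_eq_mul,
      ← Finset.sum_mul, ← Finset.mul_sum] at h5
    calc _ ≤ _ := h5
      _ = _ := by ring
  have h5 : j * (Fintype.card V - D.card) * a ≤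
      (2 * ((H.filter (fun e => (∀ v ∈ e, v ∉ D) ∧ col e ∉ B)).card +
      ∑ q ∈ B, (H.filter (fun e => col e = q)).card) + D.card * Fintype.card V) * a :=
    Nat.mul_le_mul_right _ (by omega)
  have h6 : (2 * ((H.filter (fun e => (∀ v ∈ e, v ∉ D) ∧ col e ∉ B)).card +
      ∑ q ∈ B, (H.filter (fun e => col e = q)).card) + D.card * Fintype.card V) * a =
      2 * (H.filter (fun e => (∀ v ∈ e, v ∉ D) ∧ col e ∉ B)).card * a +
      2 * (∑ q ∈ B, (H.filter (fun e => col e = q)).card) * a +
      D.card * Fintype.card V * a := by ring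
  omega

/-- Minimum degree `j > 6 t a` gives a rainbow linear forest with `j + t` edges. Otherwise by `struct_lf`
with `m = j + t`, `i = |D|`, `b = |B|`, `2 i + b + r = j + t`, and `count_deg`:
`n (i - t + r) a + b n ≤ (44 m r + i j) a ≤ n (r + i) a / 2`, so `n (i + r) a + 2 b n ≤ 2 t n a`,
`i + r ≤ 2 t`, `b ≤ t a`, and `j + t = 2 i + b + r ≤ 4 t + t a`, contradiction to `6 t a < j`. -/
theorem lf_exists2 (col : Sym2 V → κ) (H : Finset (Sym2 V)) (hdiag : ∀ e ∈ H, ¬ e.IsDiag)
    (hp : ∀ e ∈ H, ∀ e' ∈ H, ∀ x, x ∈ e → x ∈ e' → col e = col e' → e = e')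
    (j a t : ℕ) (ha1 : 1 ≤ a) (hdeg : ∀ x, j ≤ dg H x)
    (ha : ∀ q, 2 * (H.filter (fun e => col e = q)).card * a + Fintype.card V ≤
      Fintype.card V * a) (hj : 6 * t * a < j) (hn : 88 * (j + t) ≤ Fintype.card V) :
    ∃ F, F ⊆ H ∧ LF univ F ∧ Rb col F ∧ F.card = j + t := by
  rcases struct_lf col H hdiag hp (j + t) (by omega) with h | ⟨D, B, r, hr, hm, hH⟩
  · exact h
  exfalso
  have h1 := count_deg col H hdiag j a hdeg ha D B
  have h2 : D.card ≤ Fintype.card V := Finset.card_le_univ D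
  obtain ⟨k, hk⟩ := Nat.exists_eq_add_of_le h2
  generalize (H.filter (fun e => (∀ v ∈ e, v ∉ D) ∧ col e ∉ B)).card = X at h1 hH
  generalize Fintype.card V = n at h1 h2 hk hn
  generalize D.card = i at h1 h2 hk hm
  generalize B.card = b at h1 hm
  clear ha hp hdiag hdeg
  have h3 : n - i = k := by omega
  rw [h3] at h1
  have hnp : (0 : ℤ) < n := by
    have : 0 < n := by omega
    exact_mod_cast this
  zify at h1 hH hm hn hk hj hr ha1
  have hjj : (j : ℤ) = 2 * i + b + r - t := by linarith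
  have hai : (0 : ℤ) ≤ a * i := by positivity
  have har : (0 : ℤ) ≤ a * r := by positivity
  have hXa : 2 * (X : ℤ) * a ≤ 2 * (22 * (j + t) * r) * a := by
    have : (0 : ℤ) ≤ a := by positivity
    nlinarith
  have hkk : (k : ℤ) = n - i := by linarith
  rw [hkk] at h1
  have h4 : (88 * (j + t : ℤ)) * (a * r) ≤ n * (a * r) := mul_le_mul_of_nonneg_right hn har
  have h5 : (2 * (j : ℤ)) * (a * i) ≤ n * (a * i) :=
    mul_le_mul_of_nonneg_right (by
      have : (0 : ℤ) ≤ t := by positivity
      have : (0 : ℤ) ≤ j := by positivity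
      linarith) hai
  have h6 : (n : ℤ) * (a * (i + r) + 2 * b) ≤ n * (2 * a * t) := by
    have h7 : (j : ℤ) * n * a = (2 * i + b + r - t) * n * a := by rw [hjj]
    nlinarith
  have h7 : (a : ℤ) * (i + r) + 2 * b ≤ 2 * a * t := le_of_mul_le_mul_left h6 hnp
  have hb0 : (0 : ℤ) ≤ b := by positivity
  have hi0 : (0 : ℤ) ≤ i := by positivity
  have ht0 : (0 : ℤ) ≤ t := by positivity
  have ha0 : (0 : ℤ) < a := by linarith
  have h8 : (i : ℤ) + r ≤ 2 * t := by
    have : (a : ℤ) * (i + r) ≤ a * (2 * t) := by linarith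
    exact le_of_mul_le_mul_left this ha0
  have h9 : (b : ℤ) ≤ a * t := by
    have : (0 : ℤ) ≤ a * (i + r) := by positivity
    linarith
  have h10 : (t : ℤ) ≤ t * a := by nlinarith
  nlinarith

end Pool.Agent.W_cd7020_h81g
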