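import Pool.Agent.W_cd7020_h81r.CBrd
import Pool.Agent.W_cd7020_h81.Join

/-!
# Bridges from a linear forest
-/

set_option autoImplicit false

namespace Pool.Agent.W_cd7020_h81g

open Finset Pool.Agent.W_cd7020_h81 Pool.Agent.W_cd7020_h81r

variable {V κ : Type*} [DecidableEq V] [DecidableEq κ] [Fintype V]

omit [DecidableEq V] [DecidableEq κ] [Fintype V] in
theorem GBrd_split (l : List V) (h : 2 ≤ l.length) : ∃ t : V × List V × V, bl t = l := by
  rcases l with _ | ⟨a, l⟩
  · simp at h
  rcases List.eq_nil_or_concat l with rfl | ⟨m, b, rfl⟩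
  · simp at h
  · exact ⟨(a, m, b), by simp [bl]⟩

omit [DecidableEq V] [DecidableEq κ] [Fintype V] in
theorem GBrd_conv : ∀ L : List (List V), (∀ l ∈ L, 2 ≤ l.length) →
    ∃ Pb : List (V × List V × V), Pb.map bl = L
  | [], _ => ⟨[], rfl⟩
  | l :: L, h => by
    obtain ⟨Pb, hPb⟩ := GBrd_conv L fun l' hl' => h l' (List.mem_cons_of_mem _ hl')
    obtain ⟨t, ht⟩ := GBrd_split l (h l List.mem_cons_self)
    exact ⟨t :: Pb, by rw [List.map_cons, ht, hPb]⟩

omit [DecidableEq κ] [Fintype V] in
theorem GBrd_len : ∀ Pb : List (V × List V × V),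
    (Pb.flatMap bl).length = 2 * Pb.length + (Pb.flatMap (fun t => t.2.1)).length ∧
    (Pb.flatMap (fun t => pe (bl t))).length = Pb.length + (Pb.flatMap (fun t => t.2.1)).length
  | [] => by simp
  | t :: Pb => by
    obtain ⟨h1, h2⟩ := GBrd_len Pb
    have h3 : (bl t).length = t.2.1.length + 2 := by
      unfold bl
      simp
    have h4 : (pe (bl t)).length = t.2.1.length + 1 := by
      rw [pe_length, h3]
      omega
    rw [List.flatMap_cons, List.flatMap_cons, List.flatMap_cons, List.length_append,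
      List.length_append, List.length_append, h1, h2, h3, h4, List.length_cons]
    omega

omit [DecidableEq V] [DecidableEq κ] [Fintype V] in
theorem GBrd_sub : ∀ Pb : List (V × List V × V),
    (Pb.flatMap (fun t => t.2.1)).Sublist (Pb.flatMap bl)
  | [] => by simp
  | t :: Pb => by
    rw [List.flatMap_cons, List.flatMap_cons]
    refine List.Sublist.append ?_ (GBrd_sub Pb)
    unfold bl
    exact List.Sublist.cons _ (List.sublist_append_left _ _)

/-- A rainbow linear forest as a list of bridges: the segments with at least two vertices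
(`Join_seg`); a bridge with `i` inner vertices has `i + 1` edges. -/
theorem brd_startL (col : Sym2 V → κ) (S : Finset κ) (F : Finset (Sym2 V)) (hF : LF univ F)
    (hr : Rb col F) (hS : ∀ e ∈ F, col e ∉ S) :
    ∃ (T : Finset V) (Pb : List (V × List V × V)), Brd col S T Pb ∧
      Pb.length + T.card = F.card ∧ (Pb.flatMap bl).length ≤ 2 * F.card ∧
      (Pb.flatMap (fun t => pe (bl t))).length ≤ F.card := by
  classical
  obtain ⟨Q, hQ, hU, hE⟩ := hF
  obtain ⟨L, hL, hseg, hcov⟩ := Join_seg F Q
  obtain ⟨Pb, hPb⟩ := GBrd_conv (L.filter (fun l => decide (2 ≤ l.length))) (fun l hl => by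
    simpa using (List.mem_filter.1 hl).2)
  have hbl : Pb.flatMap bl = (L.filter (fun l => decide (2 ≤ l.length))).flatten := by
    rw [← hPb, List.flatMap_def]
  have hnd : (Pb.flatMap bl).Nodup := by
    rw [hbl]
    rw [← hL] at hQ
    exact hQ.sublist (List.Sublist.flatten List.filter_sublist)
  have hmemL : ∀ t ∈ Pb, bl t ∈ L := by
    intro t ht
    have h1 : bl t ∈ Pb.map bl := List.mem_map_of_mem ht
    rw [hPb] at h1
    exact (List.mem_filter.1 h1).1
  have hinF : ∀ t ∈ Pb, ∀ e ∈ pe (bl t), e ∈ F := fun t ht => (hseg _ (hmemL t ht)).2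
  have hpend : (Pb.flatMap (fun t => pe (bl t))).Nodup := by
    rw [List.nodup_flatMap] at hnd ⊢
    refine ⟨fun t ht => pe_nodup _ (hnd.1 t ht), hnd.2.imp ?_⟩
    intro t t' h e he he'
    induction e using Sym2.ind with
    | _ a b =>
      exact h (Pe_mem _ _ he a (Sym2.mem_mk_left _ _)) (Pe_mem _ _ he' a (Sym2.mem_mk_left _ _))
  have hmem : ∀ e, e ∈ Pb.flatMap (fun t => pe (bl t)) ↔ e ∈ F := by
    intro e
    rw [List.mem_flatMap]
    constructor
    · rintro ⟨t, ht, he⟩
      exact hinF t ht e he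
    · intro he
      obtain ⟨l, hl, hel⟩ := hcov e (hE e he) he
      have h2 : 2 ≤ l.length := by
        rcases l with _ | ⟨a, _ | ⟨b, l⟩⟩
        · simp [pe] at hel
        · simp [pe] at hel
        · simp
      have h3 : l ∈ L.filter (fun l => decide (2 ≤ l.length)) :=
        List.mem_filter.2 ⟨hl, by simpa using h2⟩
      rw [← hPb] at h3
      obtain ⟨t, ht, rfl⟩ := List.mem_map.1 h3
      exact ⟨t, ht, hel⟩
  have hlen : (Pb.flatMap (fun t => pe (bl t))).length = F.card := by
    rw [← List.toFinset_card_of_nodup hpend]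
    congr 1
    ext e
    rw [List.mem_toFinset, hmem]
  obtain ⟨h1, h2⟩ := GBrd_len Pb
  have hT : (Pb.flatMap (fun t => t.2.1)).toFinset.card =
      (Pb.flatMap (fun t => t.2.1)).length :=
    List.toFinset_card_of_nodup (hnd.sublist (GBrd_sub Pb))
  refine ⟨(Pb.flatMap (fun t => t.2.1)).toFinset, Pb, ⟨hnd, fun x => ?_, fun t ht e he =>
    hS e (hinF t ht e he), ?_⟩, ?_, ?_, ?_⟩
  · rw [List.mem_toFinset, List.mem_flatMap]
  · exact hpend.map_on fun e he e' he' h => hr e ((hmem e).1 he) e' ((hmem e').1 he') h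
  · omega
  · omega
  · omega

/-- All hubs (the elements of `W₀`) become inner vertices: `brd_startL`, then `brd_step` with
`W = W₀ ∪ T` for the elements of `W₀ \ T`. -/
theorem brd_existsL (col : Sym2 V → κ) (hcol : Proper col) (S : Finset κ) (W₀ : Finset V)
    (F : Finset (Sym2 V)) (hF : LF univ F) (hr : Rb col F) (hS : ∀ e ∈ F, col e ∉ S)
    (hW : ∀ x ∈ W₀, 4 * F.card + 6 * W₀.card + 3 ≤
      (univ.filter (fun y => y ≠ x ∧ col s(x, y) ∉ S)).card) :
    ∃ (W : Finset V) (Pb : List (V × List V × V)), W₀ ⊆ W ∧ Brd col S W Pb ∧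
      F.card ≤ Pb.length + W.card ∧ W.card ≤ F.card + W₀.card ∧
      Pb.length ≤ F.card + W₀.card := by
  classical
  obtain ⟨T, Pb, h1, h2, h3, h4⟩ := brd_startL col S F hF hr hS
  have hWc : (W₀ ∪ T).card ≤ W₀.card + T.card := Finset.card_union_le _ _
  have key : ∀ T' : Finset V, T' ⊆ W₀ \ T → ∃ Pb' : List (V × List V × V),
      Brd col S (T ∪ T') Pb' ∧ Pb.length ≤ Pb'.length ∧ Pb'.length ≤ Pb.length + T'.card ∧
      (Pb'.flatMap bl).length ≤ 2 * F.card + 3 * T'.card ∧
      (Pb'.flatMap (fun t => pe (bl t))).length ≤ F.card + 2 * T'.card := by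
    intro T'
    induction T' using Finset.induction_on with
    | empty =>
      intro _
      rw [Finset.union_empty]
      exact ⟨Pb, h1, le_rfl, by omega, by omega, by omega⟩
    | insert x T' hxT ih =>
      intro hT
      obtain ⟨hxW, hTW⟩ := Finset.insert_subset_iff.1 hT
      obtain ⟨hxW₀, hxT0⟩ := Finset.mem_sdiff.1 hxW
      obtain ⟨Pb', g1, g2, g3, g4, g5⟩ := ih hTW
      have g6 := hW x hxW₀
      have g7 : (insert x T').card = T'.card + 1 := Finset.card_insert_of_notMem hxT
      have g8 := Finset.card_le_card hT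
      have g9 : (W₀ \ T).card ≤ W₀.card := Finset.card_le_card Finset.sdiff_subset
      obtain ⟨Pb'', k1, k2, k3, k4, k5⟩ := brd_step col hcol S (W₀ ∪ T) (T ∪ T')
        (Finset.union_subset Finset.subset_union_right
          ((hTW.trans Finset.sdiff_subset).trans Finset.subset_union_left)) Pb' g1 x
        (Finset.mem_union_left _ hxW₀)
        (fun h => by
          rcases Finset.mem_union.1 h with h | h
          · exact hxT0 h
          · exact hxT h) (by omega)
      refine ⟨Pb'', ?_, by omega, by omega, by omega, by omega⟩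
      rw [Finset.union_insert]
      exact k1
  obtain ⟨Pb', g1, g2, g3, g4, g5⟩ := key (W₀ \ T) (Finset.Subset.refl _)
  rw [Finset.union_sdiff_self_eq_union] at g1
  have g9 : (W₀ \ T).card ≤ W₀.card := Finset.card_le_card Finset.sdiff_subset
  have g10 : T.card ≤ (T ∪ W₀).card := Finset.card_le_card Finset.subset_union_left
  have g11 : (T ∪ W₀).card ≤ T.card + W₀.card := Finset.card_union_le _ _
  exact ⟨T ∪ W₀, Pb', Finset.subset_union_right, g1, by omega, by omega, by omega⟩

end Pool.Agent.W_cd7020_h81g
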