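import Pool.Agent.W_cd7020_h81.JoinIso
import Pool.Agent.W_cd7020_h81r.CRm

/-!
# Rainbow linear forests: cherries and greedy matchings
-/

set_option autoImplicit false

namespace Pool.Agent.W_cd7020_h81g

open Finset Pool.Agent.W_cd7020_h81 Pool.Agent.W_cd7020_h81r

variable {V κ : Type*} [DecidableEq V] [DecidableEq κ] [Fintype V]

omit [DecidableEq κ] in
theorem GLf_empty : LF (univ : Finset V) ∅ :=
  ⟨univ.toList, Finset.nodup_toList _, fun v => by simp,
    fun e he => absurd he (Finset.notMem_empty e)⟩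

omit [DecidableEq κ] [Fintype V] in
theorem GLf_dg_zero {F : Finset (Sym2 V)} {v : V} (h : ∀ e ∈ F, v ∉ e) : dg F v = 0 := by
  unfold dg
  rw [Finset.card_eq_zero, Finset.filter_eq_empty_iff]
  exact fun e he hv => h e he hv

omit [DecidableEq κ] [Fintype V] in
theorem GLf_of_dg {F : Finset (Sym2 V)} {v : V} (h : dg F v = 0) : ∀ e ∈ F, v ∉ e := by
  unfold dg at h
  rw [Finset.card_eq_zero, Finset.filter_eq_empty_iff] at h
  exact fun e he hv => h he hv

omit [Fintype V] in
/-- Adding a disjoint edge with a new colour. -/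
theorem GLf_ext {col : Sym2 V → κ} {M : Finset (Sym2 V)}
    (hm : ∀ e ∈ M, ∀ e' ∈ M, ∀ x, x ∈ e → x ∈ e' → e = e') (hr : Rb col M)
    {e : Sym2 V} (h1 : ∀ x ∈ e, x ∉ CRm_V M) (h2 : ∀ e' ∈ M, col e ≠ col e') :
    (∀ a ∈ insert e M, ∀ b ∈ insert e M, ∀ x, x ∈ a → x ∈ b → a = b) ∧ Rb col (insert e M) ∧
      (insert e M).card = M.card + 1 := by
  have heM : e ∉ M := fun h => h2 e h rfl
  refine ⟨?_, ?_, Finset.card_insert_of_notMem heM⟩
  · intro a ha b hb x hxa hxb
    rw [Finset.mem_insert] at ha hb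
    rcases ha with rfl | ha
    · rcases hb with rfl | hb
      · rfl
      · exact absurd (CRm_memV.mpr ⟨b, hb, hxb⟩) (h1 x hxa)
    · rcases hb with rfl | hb
      · exact absurd (CRm_memV.mpr ⟨a, ha, hxa⟩) (h1 x hxb)
      · exact hm a ha b hb x hxa hxb
  · intro a ha b hb hab
    rw [Finset.mem_insert] at ha hb
    rcases ha with rfl | ha
    · rcases hb with rfl | hb
      · rfl
      · exact absurd hab (h2 b hb)
    · rcases hb with rfl | hb
      · exact absurd hab.symm (h2 a ha)
      · exact hr a ha b hb hab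

omit [DecidableEq κ] [Fintype V] in
theorem GLf_Rb {col : Sym2 V → κ} {M : Finset (Sym2 V)} (hr : Rb col M)
    {e : Sym2 V} (h2 : ∀ e' ∈ M, col e ≠ col e') : Rb col (insert e M) := by
  intro a ha b hb hab
  rw [Finset.mem_insert] at ha hb
  rcases ha with rfl | ha
  · rcases hb with rfl | hb
    · rfl
    · exact absurd hab (h2 b hb)
  · rcases hb with rfl | hb
    · exact absurd hab.symm (h2 a ha)
    · exact hr a ha b hb hab

/-- A good neighbour. -/
theorem GLf_pick (col : Sym2 V → κ) (H : Finset (Sym2 V)) (hdiag : ∀ e ∈ H, ¬ e.IsDiag)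
    (hp : ∀ e ∈ H, ∀ e' ∈ H, ∀ x, x ∈ e → x ∈ e' → col e = col e' → e = e')
    (F : Finset (Sym2 V)) (D : Finset V) (v : V) (h : 3 * F.card + D.card < dg H v) :
    ∃ b, s(v, b) ∈ H ∧ v ≠ b ∧ b ∉ CRm_V F ∧ b ∉ D ∧ ∀ e' ∈ F, col s(v, b) ≠ col e' := by
  classical
  set N : Finset V := univ.filter fun b => s(v, b) ∈ H with hN
  have hNc : dg H v ≤ N.card := by
    unfold dg
    refine le_trans (Finset.card_le_card (t := N.image fun b => s(v, b)) ?_)
      Finset.card_image_le
    intro e he
    obtain ⟨he1, he2⟩ := Finset.mem_filter.1 he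
    obtain ⟨b, rfl⟩ := Sym2.mem_iff_exists.1 he2
    exact Finset.mem_image.2 ⟨b, Finset.mem_filter.2 ⟨Finset.mem_univ _, he1⟩, rfl⟩
  set C : Finset V := N.filter fun b => ∃ e' ∈ F, col s(v, b) = col e' with hC
  have hCc : C.card ≤ F.card := by
    refine le_trans ?_ (Finset.card_image_le (s := F) (f := col))
    refine Finset.card_le_card_of_injOn (fun b => col s(v, b)) ?_ ?_
    · intro b hb
      obtain ⟨e', he', hc⟩ := (Finset.mem_filter.1 hb).2
      show col s(v, b) ∈ _
      rw [hc]
      exact Finset.mem_coe.mpr (Finset.mem_image_of_mem col he')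
    · intro b hb b' hb' hbb
      have h1 := (Finset.mem_filter.1 (Finset.mem_filter.1 hb).1).2
      have h2 := (Finset.mem_filter.1 (Finset.mem_filter.1 hb').1).2
      have h3 := hp _ h1 _ h2 v (Sym2.mem_mk_left _ _) (Sym2.mem_mk_left _ _) hbb
      exact Sym2.congr_right.1 h3
  have hex : ∃ b ∈ N, b ∉ C ∪ (CRm_V F ∪ D) := by
    by_contra hno
    push Not at hno
    have h1 := (Finset.card_le_card hno).trans (Finset.card_union_le _ _)
    have h2 := Finset.card_union_le (CRm_V F) D
    have h3 := CRm_cardV F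
    omega
  obtain ⟨b, hb, hb'⟩ := hex
  rw [Finset.mem_union, Finset.mem_union, not_or, not_or] at hb'
  have hbH := (Finset.mem_filter.1 hb).2
  refine ⟨b, hbH, ?_, hb'.2.1, hb'.2.2, fun e' he' hc => hb'.1 ?_⟩
  · intro hvb
    exact hdiag _ hbH (by rw [hvb]; exact Sym2.mk_isDiag_iff.2 rfl)
  · exact Finset.mem_filter.2 ⟨hb, e', he', hc⟩

/-- A matching is a linear forest (induction, `LF.join_iso`). -/
theorem lf_matching (M : Finset (Sym2 V)) (hd : ∀ e ∈ M, ¬ e.IsDiag)
    (hm : ∀ e ∈ M, ∀ e' ∈ M, ∀ x, x ∈ e → x ∈ e' → e = e') : LF univ M := by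
  classical
  induction M using Finset.induction_on with
  | empty => exact GLf_empty
  | insert e M he ih =>
    have h1 := ih (fun e' he' => hd e' (Finset.mem_insert_of_mem he'))
      (fun a ha b hb => hm a (Finset.mem_insert_of_mem ha) b (Finset.mem_insert_of_mem hb))
    have h2 := hd e (Finset.mem_insert_self _ _)
    have h3 : ∀ x ∈ e, dg M x = 0 := by
      intro x hx
      refine GLf_dg_zero fun e' he' hx' => he ?_
      have h4 := hm e (Finset.mem_insert_self _ _) e' (Finset.mem_insert_of_mem he') x hx hx'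
      rw [h4]
      exact he'
    induction e using Sym2.ind with
    | _ x y =>
      have hxy : x ≠ y := fun h => h2 (Sym2.mk_isDiag_iff.2 h)
      exact h1.join_iso (Finset.mem_univ x) (Finset.mem_univ y) hxy
        (by rw [h3 x (Sym2.mem_mk_left _ _)]; exact Nat.zero_le 1) (h3 y (Sym2.mem_mk_right _ _))

/-- Adding two edges at every vertex `v` of `D` which has large degree in `H` and degree `0` in `F`. For
`v ∈ D` choose `a`, then `b`, with `s(v, a) ∈ H` and `a` not in an edge of `F`, not in `D`, the colour new: at most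
`2 (m + 2) + (m + 1) / 2 + (m + 2) < 10 m` neighbours are excluded (`hp`: different edges at `v` have different
colours). `LF.join_iso` twice. -/
theorem cherries (col : Sym2 V → κ) (H : Finset (Sym2 V)) (hdiag : ∀ e ∈ H, ¬ e.IsDiag)
    (hp : ∀ e ∈ H, ∀ e' ∈ H, ∀ x, x ∈ e → x ∈ e' → col e = col e' → e = e') (m : ℕ)
    (hm1 : 1 ≤ m) : ∀ (D : Finset V) (F : Finset (Sym2 V)), F ⊆ H → LF univ F → Rb col F →
    (∀ v ∈ D, dg F v = 0 ∧ 10 * m ≤ dg H v) → F.card + 2 * D.card ≤ m + 1 →
    ∃ F', F' ⊆ H ∧ LF univ F' ∧ Rb col F' ∧ F'.card = F.card + 2 * D.card := by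
  classical
  intro D
  induction D using Finset.induction_on with
  | empty =>
    intro F hF hLF hR _ _
    exact ⟨F, hF, hLF, hR, by simp⟩
  | insert v D hv ih =>
    intro F hF hLF hR hD hc
    rw [Finset.card_insert_of_notMem hv] at hc
    have hDv := hD v (Finset.mem_insert_self _ _)
    have hcD : (insert v D).card = D.card + 1 := Finset.card_insert_of_notMem hv
    obtain ⟨a, ha1, ha2, ha3, ha4, ha5⟩ := GLf_pick col H hdiag hp F (insert v D) v (by
      rw [hcD]
      omega)
    have haF : s(v, a) ∉ F := fun h => ha5 _ h rfl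
    have hF1c : (insert s(v, a) F).card = F.card + 1 := Finset.card_insert_of_notMem haF
    obtain ⟨b, hb1, hb2, hb3, hb4, hb5⟩ := GLf_pick col H hdiag hp (insert s(v, a) F)
      (insert v D) v (by
      rw [hcD, hF1c]
      omega)
    have hbF : s(v, b) ∉ insert s(v, a) F := fun h => hb5 _ h rfl
    have hF2c : (insert s(v, b) (insert s(v, a) F)).card = F.card + 2 := by
      rw [Finset.card_insert_of_notMem hbF, hF1c]
    have hda : dg F a = 0 := GLf_dg_zero fun e he hae => ha3 (CRm_memV.2 ⟨e, he, hae⟩)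
    have hL1 : LF univ (insert s(v, a) F) := hLF.join_iso (Finset.mem_univ v)
      (Finset.mem_univ a) ha2 (by rw [hDv.1]; exact Nat.zero_le 1) hda
    have hdv : dg (insert s(v, a) F) v ≤ 1 := by
      have := dg_insert_le F s(v, a) v
      rw [hDv.1] at this
      exact this
    have hdb : dg (insert s(v, a) F) b = 0 :=
      GLf_dg_zero fun e he hae => hb3 (CRm_memV.2 ⟨e, he, hae⟩)
    have hL2 : LF univ (insert s(v, b) (insert s(v, a) F)) := hL1.join_iso (Finset.mem_univ v)
      (Finset.mem_univ b) hb2 hdv hdb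
    obtain ⟨F', h1, h2, h3, h4⟩ := ih (insert s(v, b) (insert s(v, a) F))
      (Finset.insert_subset hb1 (Finset.insert_subset ha1 hF)) hL2
      (GLf_Rb (GLf_Rb hR ha5) hb5) (fun w hw => by
        have hwv : w ≠ v := fun h => hv (h ▸ hw)
        have hwD := hD w (Finset.mem_insert_of_mem hw)
        refine ⟨GLf_dg_zero fun e he hwe => ?_, hwD.2⟩
        rw [Finset.mem_insert, Finset.mem_insert] at he
        rcases he with rfl | rfl | he
        · rcases Sym2.mem_iff.1 hwe with h5 | h5
          · exact hwv h5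
          · exact hb4 (h5 ▸ Finset.mem_insert_of_mem hw)
        · rcases Sym2.mem_iff.1 hwe with h5 | h5
          · exact hwv h5
          · exact ha4 (h5 ▸ Finset.mem_insert_of_mem hw)
        · exact GLf_of_dg hwD.1 e he hwe) (by
        rw [hF2c]
        omega)
    refine ⟨F', h1, h2, h3, ?_⟩
    rw [h4, hF2c, hcD]
    omega

/-- All degrees at most `10 m`, all colours with at most `2 m` edges, more than `22 m r` edges: a rainbow
matching with `r` edges. A matching with `a < r` edges: at most `2 a 10 m` edges meet it, at most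
`2 m a` have one of its colours. -/
theorem greedy_match (col : Sym2 V → κ) (H : Finset (Sym2 V)) (hdiag : ∀ e ∈ H, ¬ e.IsDiag)
    (m : ℕ) (hv : ∀ v, dg H v ≤ 10 * m)
    (hq : ∀ q, (H.filter (fun e => col e = q)).card ≤ 2 * m) (r : ℕ)
    (hH : 22 * m * r < H.card) :
    ∃ M, M ⊆ H ∧ (∀ e ∈ M, ∀ e' ∈ M, ∀ x, x ∈ e → x ∈ e' → e = e') ∧ Rb col M ∧
      M.card = r := by
  classical
  have hall : ∀ a, a ≤ r → ∃ M, M ⊆ H ∧
      (∀ e ∈ M, ∀ e' ∈ M, ∀ x, x ∈ e → x ∈ e' → e = e') ∧ Rb col M ∧ M.card = a := by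
    intro a
    induction a with
    | zero =>
      intro _
      exact ⟨∅, Finset.empty_subset _, fun e he => absurd he (Finset.notMem_empty e),
        fun e he => absurd he (Finset.notMem_empty e), rfl⟩
    | succ a ih =>
      intro har
      obtain ⟨M, hM, hm, hr, hk⟩ := ih (by omega)
      set A := H.filter fun e => ∃ x ∈ CRm_V M, x ∈ e with hA
      set B := H.filter fun e => ∃ e' ∈ M, col e = col e' with hB
      have hAc : A.card ≤ 2 * a * (10 * m) := by
        have h2 : A ⊆ (CRm_V M).biUnion fun x => H.filter fun e => x ∈ e := by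
          intro e he
          obtain ⟨heH, x, hx, hxe⟩ := Finset.mem_filter.mp he
          rw [Finset.mem_biUnion]
          exact ⟨x, hx, Finset.mem_filter.mpr ⟨heH, hxe⟩⟩
        refine (Finset.card_le_card h2).trans (Finset.card_biUnion_le.trans ?_)
        refine (Finset.sum_le_sum fun x _ => hv x).trans ?_
        rw [Finset.sum_const, smul_eq_mul]
        exact Nat.mul_le_mul_right _ ((CRm_cardV M).trans (by rw [hk]))
      have hBc : B.card ≤ a * (2 * m) := by
        have h2 : B ⊆ M.biUnion fun e' => H.filter fun e => col e = col e' := by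
          intro e he
          obtain ⟨heH, e', he', hc⟩ := Finset.mem_filter.mp he
          rw [Finset.mem_biUnion]
          exact ⟨e', he', Finset.mem_filter.mpr ⟨heH, hc⟩⟩
        refine (Finset.card_le_card h2).trans (Finset.card_biUnion_le.trans ?_)
        refine (Finset.sum_le_sum fun e' _ => hq (col e')).trans ?_
        rw [Finset.sum_const, smul_eq_mul, hk]
      have hex : ∃ e ∈ H, e ∉ A ∪ B := by
        by_contra hno
        push Not at hno
        have h1 := (Finset.card_le_card hno).trans (Finset.card_union_le A B)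
        have h3 : 2 * a * (10 * m) + a * (2 * m) ≤ 22 * m * r := by
          have h4 : 2 * a * (10 * m) + a * (2 * m) = 22 * m * a := by ring
          rw [h4]
          exact Nat.mul_le_mul_left _ (by omega)
        omega
      obtain ⟨e, he, hAB⟩ := hex
      rw [Finset.mem_union, not_or] at hAB
      refine CRm_ext col H a M hM hm hr hk e he ?_ ?_
      · intro x hx hxV
        exact hAB.1 (Finset.mem_filter.mpr ⟨he, x, hxV, hx⟩)
      · intro e' he' hc
        exact hAB.2 (Finset.mem_filter.mpr ⟨he, e', he', hc⟩)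
  exact hall r le_rfl

/-- Adding one edge of every colour of `B`; each has at least `2 m` edges (disjoint by `hp`), at most
`2 (m - 1)` of which meet the matching. -/
theorem big_match (col : Sym2 V → κ) (H : Finset (Sym2 V)) (hdiag : ∀ e ∈ H, ¬ e.IsDiag)
    (hp : ∀ e ∈ H, ∀ e' ∈ H, ∀ x, x ∈ e → x ∈ e' → col e = col e' → e = e') (m : ℕ) :
    ∀ (B : Finset κ) (M : Finset (Sym2 V)), M ⊆ H →
    (∀ e ∈ M, ∀ e' ∈ M, ∀ x, x ∈ e → x ∈ e' → e = e') → Rb col M → (∀ e ∈ M, col e ∉ B) →
    (∀ q ∈ B, 2 * m ≤ (H.filter (fun e => col e = q)).card) → M.card + B.card ≤ m →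
    ∃ M', M' ⊆ H ∧ (∀ e ∈ M', ∀ e' ∈ M', ∀ x, x ∈ e → x ∈ e' → e = e') ∧ Rb col M' ∧
      M'.card = M.card + B.card := by
  classical
  intro B
  induction B using Finset.induction_on with
  | empty =>
    intro M hM hm hr _ _ _
    exact ⟨M, hM, hm, hr, by simp⟩
  | insert q B hqB ih =>
    intro M hM hm hr hMB hB hc
    rw [Finset.card_insert_of_notMem hqB] at hc
    set D := H.filter fun e => col e = q with hD
    set A := D.filter fun e => ∃ x ∈ CRm_V M, x ∈ e with hA
    have hAc : A.card ≤ 2 * M.card := by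
      refine (CRm_inj (CRm_V M) A ?_ ?_).trans (CRm_cardV M)
      · intro e he
        exact (Finset.mem_filter.mp he).2
      · intro x _ e he e' he' hxe hxe'
        have h1 := Finset.mem_filter.mp (Finset.mem_filter.mp he).1
        have h2 := Finset.mem_filter.mp (Finset.mem_filter.mp he').1
        exact hp e h1.1 e' h2.1 x hxe hxe' (h1.2.trans h2.2.symm)
    have hDc : 2 * m ≤ D.card := hB q (Finset.mem_insert_self _ _)
    have hex : ∃ e ∈ D, e ∉ A := by
      by_contra hno
      push Not at hno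
      have h1 := Finset.card_le_card hno
      omega
    obtain ⟨e, he, hA'⟩ := hex
    obtain ⟨heH, heq⟩ := Finset.mem_filter.mp he
    obtain ⟨g1, g2, g3⟩ := GLf_ext (col := col) hm hr (e := e)
      (fun x hx hxV => hA' (Finset.mem_filter.mpr ⟨he, x, hxV, hx⟩))
      (fun e' he' hc' => hMB e' he' (by
        rw [← hc', heq]
        exact Finset.mem_insert_self _ _))
    obtain ⟨M', h1, h2, h3, h4⟩ := ih (insert e M) (Finset.insert_subset heH hM) g1 g2
      (fun e' he' hB' => by
        rcases Finset.mem_insert.1 he' with rfl | he'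
        · rw [heq] at hB'
          exact hqB hB'
        · exact hMB e' he' (Finset.mem_insert_of_mem hB'))
      (fun q' hq' => hB q' (Finset.mem_insert_of_mem hq')) (by
        rw [g3]
        omega)
    refine ⟨M', h1, h2, h3, ?_⟩
    rw [h4, g3, Finset.card_insert_of_notMem hqB]
    omega

end Pool.Agent.W_cd7020_h81g
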