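import Pool.Agent.W_cd7020_h81g.GLf

/-!
# Rainbow linear forests: a structure lemma
-/

set_option autoImplicit false

namespace Pool.Agent.W_cd7020_h81g

open Finset Pool.Agent.W_cd7020_h81

variable {V κ : Type*} [DecidableEq V] [DecidableEq κ] [Fintype V]

omit [DecidableEq V] [DecidableEq κ] in
theorem GStr_lf_empty [DecidableEq V] : LF (univ : Finset V) ∅ := by
  refine ⟨(univ : Finset V).toList, Finset.nodup_toList _, fun v => by simp, fun e he => by simp at he⟩

omit [DecidableEq V] [DecidableEq κ] [Fintype V] in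
theorem GStr_rb_mono {col : Sym2 V → κ} {E E' : Finset (Sym2 V)} (h : Rb col E) (hs : E' ⊆ E) :
    Rb col E' := fun e he e' he' hc => h e (hs he) e' (hs he') hc

/-- A rainbow linear forest with `m` edges, or a vertex set `D` and a set `B` of colours such that few
edges avoid both. `D` is the set of vertices of degree at least `10 m` (if `2 |D| ≥ m`: `cherries` for a subset with
`(m + 1) / 2` elements and `F = ∅`, then drop an edge if necessary). `H'`: the edges avoiding `D`. `B`: the
colours with at least `2 m` edges in `H'` (if `|B| ≥ m - 2 |D|`: `big_match` for a subset with `m - 2 |D|` elements,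
`lf_matching`, `cherries`). Otherwise `r = m - 2 |D| - |B| ≥ 1`; if more than `22 m r` edges of `H'` have
colours outside `B`: `greedy_match`, `big_match`, `cherries`. -/
theorem struct_lf (col : Sym2 V → κ) (H : Finset (Sym2 V)) (hdiag : ∀ e ∈ H, ¬ e.IsDiag)
    (hp : ∀ e ∈ H, ∀ e' ∈ H, ∀ x, x ∈ e → x ∈ e' → col e = col e' → e = e') (m : ℕ)
    (hm1 : 1 ≤ m) :
    (∃ F, F ⊆ H ∧ LF univ F ∧ Rb col F ∧ F.card = m) ∨
    ∃ (D : Finset V) (B : Finset κ) (r : ℕ), 1 ≤ r ∧ 2 * D.card + B.card + r = m ∧
      (H.filter (fun e => (∀ v ∈ e, v ∉ D) ∧ col e ∉ B)).card ≤ 22 * m * r := by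
  classical
  set D : Finset V := univ.filter (fun v => 10 * m ≤ dg H v) with hD
  by_cases h1 : m ≤ 2 * D.card
  · left
    obtain ⟨D', hD', hc⟩ := Finset.exists_subset_card_eq (s := D) (n := (m + 1) / 2) (by omega)
    obtain ⟨F', hF1, hF2, hF3, hF4⟩ := cherries col H hdiag hp m hm1 D' ∅ (by simp)
      GStr_lf_empty (fun e he => by simp at he)
      (fun v hv => ⟨by simp [dg], by
        have h2 := hD' hv
        rw [hD, Finset.mem_filter] at h2
        exact h2.2⟩)
      (by rw [hc, Finset.card_empty]; omega)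
    rw [hc, Finset.card_empty] at hF4
    obtain ⟨F, hF, hFc⟩ := Finset.exists_subset_card_eq (s := F') (n := m) (by omega)
    exact ⟨F, hF.trans hF1, hF2.mono hF, GStr_rb_mono hF3 hF, hFc⟩
  push Not at h1
  set H' : Finset (Sym2 V) := H.filter (fun e => ∀ v ∈ e, v ∉ D) with hH'
  have hH'H : H' ⊆ H := Finset.filter_subset _ _
  set B : Finset κ := (H'.image col).filter
    (fun q => 2 * m ≤ (H'.filter (fun e => col e = q)).card) with hB
  have hBm : ∀ q ∈ B, 2 * m ≤ (H'.filter (fun e => col e = q)).card := by
    intro q hq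
    rw [hB, Finset.mem_filter] at hq
    exact hq.2
  have hBn : ∀ q, q ∉ B → (H'.filter (fun e => col e = q)).card < 2 * m := by
    intro q hq
    by_contra h2
    push Not at h2
    apply hq
    rw [hB, Finset.mem_filter]
    refine ⟨?_, h2⟩
    have h3 : 0 < (H'.filter (fun e => col e = q)).card := by omega
    obtain ⟨e, he⟩ := Finset.card_pos.1 h3
    rw [Finset.mem_filter] at he
    exact Finset.mem_image.2 ⟨e, he.1, he.2⟩
  have hdiag' : ∀ e ∈ H', ¬ e.IsDiag := fun e he => hdiag e (hH'H he)
  have hp' : ∀ e ∈ H', ∀ e' ∈ H', ∀ x, x ∈ e → x ∈ e' → col e = col e' → e = e' :=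
    fun e he e' he' => hp e (hH'H he) e' (hH'H he')
  -- from a matching in `H'` to a linear forest
  have key : ∀ M : Finset (Sym2 V), M ⊆ H' → (∀ e ∈ M, ∀ e' ∈ M, ∀ x, x ∈ e → x ∈ e' → e = e') →
      Rb col M → M.card = m - 2 * D.card → ∃ F, F ⊆ H ∧ LF univ F ∧ Rb col F ∧ F.card = m := by
    intro M hM1 hM2 hM3 hM4
    have hlf : LF univ M := lf_matching M (fun e he => hdiag' e (hM1 he)) hM2
    obtain ⟨F, hF1, hF2, hF3, hF4⟩ := cherries col H hdiag hp m hm1 D M (hM1.trans hH'H) hlf hM3
      (fun v hv => ⟨by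
        unfold dg
        rw [Finset.card_eq_zero, Finset.filter_eq_empty_iff]
        intro e he hve
        have h2 := hM1 he
        rw [hH', Finset.mem_filter] at h2
        exact h2.2 v hve hv, by
        rw [hD, Finset.mem_filter] at hv
        exact hv.2⟩)
      (by omega)
    exact ⟨F, hF1, hF2, hF3, by omega⟩
  by_cases h2 : m - 2 * D.card ≤ B.card
  · left
    obtain ⟨B', hB', hc⟩ := Finset.exists_subset_card_eq (s := B) (n := m - 2 * D.card) h2
    obtain ⟨M, hM1, hM2, hM3, hM4⟩ := big_match col H' hdiag' hp' m B' ∅ (by simp)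
      (fun e he => by simp at he) (fun e he => by simp at he) (fun e he => by simp at he)
      (fun q hq => hBm q (hB' hq)) (by rw [hc, Finset.card_empty]; omega)
    exact key M hM1 hM2 hM3 (by rw [hM4, hc, Finset.card_empty]; omega)
  push Not at h2
  by_cases h3 : (H.filter (fun e => (∀ v ∈ e, v ∉ D) ∧ col e ∉ B)).card ≤
      22 * m * (m - 2 * D.card - B.card)
  · right
    exact ⟨D, B, m - 2 * D.card - B.card, by omega, by omega, h3⟩
  push Not at h3
  left
  set H'' : Finset (Sym2 V) := H.filter (fun e => (∀ v ∈ e, v ∉ D) ∧ col e ∉ B) with hH''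
  have hs : H'' ⊆ H' := by
    intro e he
    rw [hH'', Finset.mem_filter] at he
    rw [hH', Finset.mem_filter]
    exact ⟨he.1, he.2.1⟩
  obtain ⟨M, hM1, hM2, hM3, hM4⟩ := greedy_match col H'' (fun e he => hdiag' e (hs he)) m
    (fun v => by
      by_cases hv : v ∈ D
      · have h4 : dg H'' v = 0 := by
          unfold dg
          rw [Finset.card_eq_zero, Finset.filter_eq_empty_iff]
          intro e he hve
          rw [hH'', Finset.mem_filter] at he
          exact he.2.1 v hve hv
        omega
      · have h4 : dg H'' v ≤ dg H v := dg_mono (hs.trans hH'H) v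
        have h5 : ¬ 10 * m ≤ dg H v := by
          intro h6
          exact hv (by rw [hD, Finset.mem_filter]; exact ⟨Finset.mem_univ _, h6⟩)
        omega)
    (fun q => by
      by_cases hq : q ∈ B
      · have h4 : H''.filter (fun e => col e = q) = ∅ := by
          rw [Finset.filter_eq_empty_iff]
          intro e he hc
          rw [hH'', Finset.mem_filter] at he
          exact he.2.2 (hc ▸ hq)
        rw [h4, Finset.card_empty]
        omega
      · have h4 : (H''.filter (fun e => col e = q)).card ≤ (H'.filter (fun e => col e = q)).card :=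
          Finset.card_le_card (Finset.filter_subset_filter _ hs)
        have h5 := hBn q hq
        omega)
    (m - 2 * D.card - B.card) h3
  obtain ⟨M', hM1', hM2', hM3', hM4'⟩ := big_match col H' hdiag' hp' m B M (hM1.trans hs) hM2 hM3
    (fun e he => by
      have h4 := hM1 he
      rw [hH'', Finset.mem_filter] at h4
      exact h4.2.2) hBm (by omega)
  exact key M' hM1' hM2' hM3' (by omega)

end Pool.Agent.W_cd7020_h81g
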